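import Mathlib

namespace Pool.Agent.H.MP_2aafb6_co

open Finset

def Good (b c k n : ℕ) : Prop :=
  ∃ A : Finset ℤ, A.card = n + 1 ∧ (∀ x ∈ A, x + k ∉ A) ∧
    ∀ x ∈ A, ∀ y ∈ A, x + c < y → b ≤ (A.filter fun z => x < z ∧ z < y).card

theorem cut (A : Finset ℤ) (m : ℕ) : m ≤ A.card → ∃ t, (A.filter (· < t)).card = m := by
  induction m with
  | zero =>
    intro _
    obtain ⟨t, ht⟩ := A.bddBelow
    exact ⟨t, by simpa using fun x hx => ht hx⟩
  | succ m ih =>
    intro hm
    obtain ⟨t, ht⟩ := ih (by omega)
    have h1 := card_filter_add_card_filter_not (s := A) (· < t)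
    have hne : (A.filter fun x => ¬ x < t).Nonempty := card_pos.1 (by omega)
    obtain ⟨y, hy, hmin⟩ := exists_min_image _ (fun x : ℤ => x) hne
    simp only [mem_filter] at hy hmin
    refine ⟨y + 1, ?_⟩
    have : A.filter (· < y + 1) = insert y (A.filter (· < t)) := by
      ext z
      simp only [mem_filter, mem_insert]
      constructor
      · rintro ⟨h1, h2⟩
        by_cases h : z < t
        · exact Or.inr ⟨h1, h⟩
        · have := hmin z ⟨h1, h⟩
          omega
      · rintro (rfl | ⟨h1, h2⟩)
        · exact ⟨hy.1, by omega⟩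
        · exact ⟨h1, by omega⟩
    rw [this, card_insert_of_notMem (by simp [hy]), ht]

theorem part (A : Finset ℤ) {x y : ℤ} (hx : x ∈ A) (hy : y ∈ A) (h : x < y) :
    A.card = (A.filter (· < x)).card + (A.filter fun z => x < z ∧ z < y).card +
      (A.filter (y < ·)).card + 2 := by
  have e1 : (A.filter (· = x)).card = 1 := by rw [filter_eq', if_pos hx, card_singleton]
  have e2 : (A.filter (· = y)).card = 1 := by rw [filter_eq', if_pos hy, card_singleton]
  have : A.card = (A.filter (· < x)).card + (A.filter fun z => x < z ∧ z < y).card +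
      (A.filter (y < ·)).card + ((A.filter (· = x)).card + (A.filter (· = y)).card) := by
    simp only [card_filter, ← sum_add_distrib]
    rw [card_eq_sum_ones]
    refine sum_congr rfl fun z _ => ?_
    split_ifs <;> omega
  omega

theorem ins {b c k n : ℕ} (h1 : b ≤ n) (h2 : n < 2 * b) (h : Good b c k n) :
    Good (b + k) (c + 2 * k) k (n + k) := by
  obtain ⟨A, hA, hav, had⟩ := h
  obtain ⟨t, ht⟩ := cut A b (by omega)
  have hs := card_filter_add_card_filter_not (s := A) (· < t)
  let ψ : ℤ → ℤ := fun r => if r - k ∈ A then r + k else r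
  let φ : ℤ → ℤ := fun x => if x < t then x else x + 2 * k
  let Wd := (Ico t (t + k)).image ψ
  have hφ : Function.Injective φ := by
    intro x y
    simp only [φ]
    split_ifs <;> omega
  have hWd : Wd.card = k := by
    rw [card_image_of_injOn]
    · simp
    · intro x hx y hy
      simp only [coe_Ico, Set.mem_Ico, ψ] at hx hy ⊢
      split_ifs <;> omega
  have mW : ∀ y, y ∈ Wd ↔ (t ≤ y ∧ y < t + k ∧ y - k ∉ A) ∨
      (t + k ≤ y ∧ y < t + 2 * k ∧ y - 2 * k ∈ A) := by
    intro y
    simp only [Wd, mem_image, mem_Ico, ψ]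
    constructor
    · rintro ⟨r, hr, rfl⟩
      split_ifs with h
      · exact Or.inr ⟨by omega, by omega, by convert h using 1; ring⟩
      · exact Or.inl ⟨hr.1, hr.2, h⟩
    · rintro (⟨a, b, h⟩ | ⟨a, b, h⟩)
      · exact ⟨y, ⟨a, b⟩, if_neg h⟩
      · refine ⟨y - k, ⟨by omega, by omega⟩, ?_⟩
        rw [if_pos (by convert h using 1; ring)]
        ring
  have mφ : ∀ (S : Finset ℤ) y, y ∈ S.image φ ↔ (y < t ∧ y ∈ S) ∨
      (t + 2 * k ≤ y ∧ y - 2 * k ∈ S) := by
    intro S y
    simp only [mem_image, φ]
    constructor
    · rintro ⟨r, hr, rfl⟩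
      split_ifs with h
      · exact Or.inl ⟨h, hr⟩
      · exact Or.inr ⟨by omega, by simpa using hr⟩
    · rintro (⟨a, h⟩ | ⟨a, h⟩)
      · exact ⟨y, h, if_pos a⟩
      · exact ⟨_, h, by rw [if_neg (by omega)]; ring⟩
  have cu : ∀ S : Finset ℤ, (S.image φ ∪ Wd).card = S.card + k := by
    intro S
    rw [card_union_of_disjoint, card_image_of_injective _ hφ, hWd]
    rw [disjoint_left]
    intro y h1 h2
    rw [mφ] at h1
    rw [mW] at h2
    omega
  refine ⟨A.image φ ∪ Wd, by rw [cu]; omega, fun x hx hx' => ?_, fun x hx y hy hxy => ?_⟩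
  · simp only [mem_union, mφ, mW] at hx hx'
    have e1 : x + k - k = x := by ring
    have e2 : x + k - 2 * k = x - k := by ring
    have e3 := hav (x - 2 * k)
    have e4 : x - 2 * k + k = x - k := by ring
    have e5 := hav x
    rw [e1, e2] at hx'
    rw [e4] at e3
    by_cases p1 : x ∈ A <;> by_cases p2 : x - k ∈ A <;> by_cases p3 : x - 2 * k ∈ A <;>
      by_cases p4 : x + k ∈ A <;> simp [p1, p2, p3, p4] at hx hx' e3 e5 <;> omega
  · push_cast at hxy
    have hx1 : x < t := by
      by_contra hxt
      have hy' : y - 2 * k ∈ A := by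
        simp only [mem_union, mφ, mW] at hy
        rcases hy with (h | h) | h | h <;> first | omega | exact h.2
      have hne : (A.filter (· < t)).Nonempty := card_pos.1 (by omega)
      obtain ⟨u, hu, hmax⟩ := exists_max_image _ (fun x : ℤ => x) hne
      simp only [mem_filter] at hu hmax
      have q1 := had u hu.1 _ hy' (by omega)
      have q2 : (A.filter fun z => u < z ∧ z < y - 2 * k) ⊆
          (A.filter fun z => ¬ z < t).erase (y - 2 * k) := by
        intro z hz
        simp only [mem_filter, mem_erase] at hz ⊢
        refine ⟨by omega, hz.1, fun h => ?_⟩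
        have := hmax z ⟨hz.1, h⟩
        omega
      have q3 := card_le_card q2
      rw [card_erase_of_mem (mem_filter.2 ⟨hy', by omega⟩)] at q3
      omega
    have hx' : x ∈ A := by
      simp only [mem_union, mφ, mW] at hx
      rcases hx with (h | h) | h | h <;> first | omega | exact h.2
    have hy1 : t + 2 * k ≤ y := by
      by_contra hyt
      have hne : (A.filter fun z => ¬ z < t).Nonempty := card_pos.1 (by omega)
      obtain ⟨u, hu, hmin⟩ := exists_min_image _ (fun x : ℤ => x) hne
      simp only [mem_filter] at hu hmin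
      have q1 := had x hx' _ hu.1 (by omega)
      have q2 : (A.filter fun z => x < z ∧ z < u) ⊆ (A.filter (· < t)).erase x := by
        intro z hz
        simp only [mem_filter, mem_erase] at hz ⊢
        refine ⟨by omega, hz.1, ?_⟩
        by_contra h
        have := hmin z ⟨hz.1, h⟩
        omega
      have q3 := card_le_card q2
      rw [card_erase_of_mem (mem_filter.2 ⟨hx', hx1⟩)] at q3
      omega
    have hy' : y - 2 * k ∈ A := by
      simp only [mem_union, mφ, mW] at hy
      rcases hy with (h | h) | h | h <;> first | omega | exact h.2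
    have q1 := had x hx' _ hy' (by omega)
    have q2 : (A.filter fun z => x < z ∧ z < y - 2 * k).image φ ∪ Wd ⊆
        (A.image φ ∪ Wd).filter fun z => x < z ∧ z < y := by
      intro z hz
      simp only [mem_filter, mem_union, mφ] at hz ⊢
      rcases hz with (h | h) | h
      · exact ⟨Or.inl (Or.inl ⟨h.1, h.2.1⟩), by omega⟩
      · exact ⟨Or.inl (Or.inr ⟨h.1, h.2.1⟩), by omega⟩
      · refine ⟨Or.inr h, ?_⟩
        rw [mW] at h
        omega
    have q3 := card_le_card q2
    rw [cu] at q3
    omega

theorem del {b c k n : ℕ} (h1 : b ≤ n) (h2 : n < 2 * b)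
    (h : Good (b + k) (c + 2 * k) k (n + k)) : Good b c k n := by
  obtain ⟨A, hA, hav, had⟩ := h
  obtain ⟨t, ht⟩ := cut A (n + 1 - b) (by omega)
  let Wn := A.filter fun z => t ≤ z ∧ z < t + 2 * k
  let Up := A.filter fun z => t + 2 * k ≤ z
  let Cf := (A.filter (· < t)).filter fun x => t ≤ x + k ∧ x + 3 * k ∈ A
  have hs : A.card = (A.filter (· < t)).card + Wn.card + Up.card := by
    simp only [Wn, Up, card_filter, ← sum_add_distrib]
    rw [card_eq_sum_ones]
    refine sum_congr rfl fun z _ => ?_
    split_ifs <;> omega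
  have hW : Wn.card + Cf.card ≤ k := by
    rw [← card_union_of_disjoint]
    · have := card_le_card_of_injOn (s := Wn ∪ Cf) (t := Ico t (t + k))
        (fun z => if z < t then z + k else if z < t + k then z else z - k) ?_ ?_
      · simpa using this
      · intro z hz
        simp only [Wn, Cf, coe_union, coe_filter, mem_filter, Set.mem_union, Set.mem_ofPred_eq,
          coe_Ico, Set.mem_Ico] at hz ⊢
        split_ifs <;> omega
      · have key : ∀ x y, x ∈ Wn ∪ Cf → y ∈ Wn ∪ Cf → y ≠ x + k ∧ y ≠ x + 2 * k := by
          intro x y hx hy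
          simp only [Wn, Cf, mem_union, mem_filter] at hx hy
          have hxA : x ∈ A := by rcases hx with h | h; exacts [h.1, h.1.1]
          have hyA : y ∈ A := by rcases hy with h | h; exacts [h.1, h.1.1]
          refine ⟨fun e => hav x hxA (e ▸ hyA), fun e => ?_⟩
          rcases hx with h | h
          · have := hav x hxA
            rcases Nat.eq_zero_or_pos k with rfl | hk
            · simp [hxA] at this
            · omega
          · refine hav y hyA ?_
            convert h.2.2 using 1
            rw [e]; ring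
        intro x hx y hy
        have k1 := key x y hx hy
        have k2 := key y x hy hx
        simp only
        split_ifs <;> omega
    · rw [disjoint_left]
      intro z a b
      simp only [Wn, Cf, mem_filter] at a b
      omega
  let B := (A.filter (· < t) \ Cf) ∪ Up.image (· - 2 * k)
  have mB : ∀ y, y ∈ B ↔ (y < t ∧ y ∈ A ∧ ¬ (t ≤ y + k ∧ y + 3 * k ∈ A)) ∨
      (t ≤ y ∧ y + 2 * k ∈ A) := by
    intro y
    simp only [B, Cf, Up, mem_union, mem_sdiff, mem_filter, mem_image]
    refine or_congr (by tauto) ⟨?_, fun h => ⟨_, ⟨h.2, by omega⟩, by ring⟩⟩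
    rintro ⟨z, hz, rfl⟩
    exact ⟨by omega, by simpa using hz.1⟩
  have cB : n + 1 ≤ B.card := by
    rw [card_union_of_disjoint, card_sdiff_of_subset (filter_subset _ _),
      card_image_of_injective _ (sub_left_injective)]
    · have : Cf.card ≤ (A.filter (· < t)).card := card_filter_le _ _
      change n + 1 ≤ _ - Cf.card + _
      omega
    · rw [disjoint_left]
      intro z a b
      simp only [Up, mem_sdiff, mem_filter, mem_image] at a b
      obtain ⟨w, hw, rfl⟩ := b
      omega
  obtain ⟨s, hs'⟩ := cut B (B.card - (n + 1)) (by omega)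
  have hs2 := card_filter_add_card_filter_not (s := B) (· < s)
  have c0 : (B.filter fun z => ¬ z < s).card = n + 1 := by omega
  have sub0 : ∀ z ∈ B.filter fun z => ¬ z < s, z ∈ B := fun z hz => (mem_filter.1 hz).1
  generalize (B.filter fun z => ¬ z < s) = B0 at c0 sub0
  refine ⟨B0, c0, fun x hx hx' => ?_, fun x hx y hy hxy => ?_⟩
  · have a1 := (mB _).1 (sub0 _ hx)
    have a2 := (mB _).1 (sub0 _ hx')
    have e1 : x + k + 2 * k = x + 3 * k := by ring
    have e2 : x + 2 * k + k = x + 3 * k := by ring
    have e3 := hav (x + 2 * k)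
    rw [e1] at a2
    rw [e2] at e3
    rcases a1 with a1 | a1 <;> rcases a2 with a2 | a2
    · exact hav x a1.2.1 a2.2.1
    · exact a1.2.2 a2
    · omega
    · exact e3 a1.2 a2.2
  · by_contra hlt
    have p0 := part B0 hx hy (by omega)
    have a1 := (mB _).1 (sub0 _ hx)
    have a2 := (mB _).1 (sub0 _ hy)
    rcases a2 with a2 | a2
    · have hxA : x ∈ A := by
        rcases a1 with a1 | a1
        exacts [a1.2.1, by omega]
      have hne : Up.Nonempty := card_pos.1 (by omega)
      obtain ⟨u, hu, hmin⟩ := exists_min_image _ (fun x : ℤ => x) hne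
      simp only [Up, mem_filter] at hu hmin
      have q1 := had x hxA u hu.1 (by push_cast; omega)
      have q2 : (A.filter fun z => x < z ∧ z < u) ⊆ (A.filter (· < t)).erase x ∪ Wn := by
        intro z hz
        simp only [Wn, mem_filter, mem_erase, mem_union] at hz ⊢
        by_cases h : z < t
        · exact Or.inl ⟨by omega, hz.1, h⟩
        · refine Or.inr ⟨hz.1, by omega, ?_⟩
          by_contra h'
          have := hmin z ⟨hz.1, by omega⟩
          omega
      have q3 := (card_le_card q2).trans (card_union_le _ _)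
      rw [card_erase_of_mem (mem_filter.2 ⟨hxA, by omega⟩)] at q3
      omega
    · have up : (B0.filter (y < ·)).card ≤ (A.filter (y + 2 * k < ·)).card := by
        refine card_le_card_of_injOn (· + 2 * k) (fun z hz => ?_) fun _ _ _ _ e => by simpa using e
        simp only [coe_filter, Set.mem_ofPred_eq] at hz ⊢
        rcases (mB _).1 (sub0 _ hz.1) with h | h
        · omega
        · exact ⟨h.2, by omega⟩
      obtain ⟨z, hz, hzx, hzc⟩ : ∃ z ∈ A, z ≤ x ∧
          min (B0.filter (· < x)).card (n - b) ≤ (A.filter (· < z)).card := by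
        rcases a1 with a1 | a1
        · refine ⟨x, a1.2.1, le_rfl, (min_le_left _ _).trans (card_le_card fun w hw => ?_)⟩
          simp only [mem_filter] at hw ⊢
          rcases (mB _).1 (sub0 _ hw.1) with h | h
          · exact ⟨h.2.1, hw.2⟩
          · omega
        · have hne : (A.filter (· < t)).Nonempty := card_pos.1 (by omega)
          obtain ⟨u, hu, hmax⟩ := exists_max_image _ (fun x : ℤ => x) hne
          have q : (A.filter (· < t)).erase u ⊆ A.filter (· < u) := by
            intro w hw
            have := hmax w (mem_erase.1 hw).2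
            simp only [mem_filter, mem_erase] at hw ⊢
            exact ⟨hw.2.1, by omega⟩
          have q3 := card_le_card q
          rw [card_erase_of_mem hu] at q3
          simp only [mem_filter] at hu
          exact ⟨u, hu.1, by omega, by omega⟩
      have q1 := had z hz _ a2.2 (by push_cast; omega)
      have q2 := part A hz a2.2 (by omega)
      omega

end Pool.Agent.H.MP_2aafb6_co
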